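import Pool.Agent.Helper12.CL.Cover
import Pool.Agent.TH101.RG.OneZ

set_option autoImplicit false
set_option maxHeartbeats 4000000

/-! # Bounded clusters of primes `p` with all the numbers `a k p + b` composite up to the record size -/

namespace Pool.Agent.Helper12.CL

open Finset Filter Pool.Agent.TH101.RG
open Pool.Agent.H378R2
open Pool.Agent.H312R2.RG (BVat)
open Pool.Agent.H256R2.SC (ff)
open Pool.Agent.H362R2.RQ (fib)

open scoped Classical

theorem exists_col' (K m : ℕ) (hm : 1 ≤ m) (hK : m ≤ K) : ∃ col : Fin K → Fin m, ∀ e, K ≤ 2 * m * fib col e := by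
  refine ⟨fun j => ⟨(j : ℕ) % m, Nat.mod_lt _ hm⟩, fun e => ?_⟩
  have h1 : K / m ≤ fib (fun j : Fin K => (⟨(j : ℕ) % m, Nat.mod_lt _ hm⟩ : Fin m)) e := by
    unfold Pool.Agent.H362R2.RQ.fib
    have h2 : (univ : Finset (Fin (K / m))).card ≤
        ((univ : Finset (Fin K)).filter (fun j : Fin K => (⟨(j : ℕ) % m, Nat.mod_lt _ hm⟩ : Fin m) = e)).card := by
      have hlt : ∀ i : Fin (K / m), (i : ℕ) * m + e < K := by
        intro i
        have h3 : (i : ℕ) + 1 ≤ K / m := i.2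
        have h4 : ((i : ℕ) + 1) * m ≤ K / m * m := Nat.mul_le_mul_right m h3
        have h5 : K / m * m ≤ K := Nat.div_mul_le_self K m
        have h6 := e.2
        nlinarith
      apply card_le_card_of_injOn (fun i : Fin (K / m) => (⟨(i : ℕ) * m + e, hlt i⟩ : Fin K))
      · intro i _
        rw [mem_coe, mem_filter]
        refine ⟨mem_univ _, ?_⟩
        apply Fin.ext
        show ((i : ℕ) * m + e) % m = e
        rw [add_comm, Nat.add_mul_mod_self_right]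
        exact Nat.mod_eq_of_lt e.2
      · intro i _ i' _ hii
        have h3 := congrArg Fin.val hii
        simp only at h3
        apply Fin.ext
        have h4 : (i : ℕ) * m = i' * m := by omega
        exact Nat.eq_of_mul_eq_mul_right hm h4
    rw [card_univ, Fintype.card_fin] at h2
    exact h2
  have h2 : 1 ≤ K / m := (Nat.one_le_div_iff hm).2 hK
  have h3 : K < m * (K / m + 1) := Nat.lt_mul_div_succ K hm
  calc K ≤ m * (K / m + 1) := h3.le
    _ ≤ m * (2 * (K / m)) := Nat.mul_le_mul_left m (by omega)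
    _ = 2 * m * (K / m) := by ring
    _ ≤ _ := Nat.mul_le_mul_left _ h1

/-- the determinant of two different forms of the family does not vanish -/
theorem det_ne (a b : ℤ) (ha : a ≠ 0) (hb : b ≠ 0) (Q : ℕ) (hQ : 2 * b.natAbs < Q) (z z' : ℤ) (hz : z ≠ 0)
    (hz' : z' ≠ 0) (j j' : ℕ) (h : ¬ (z = z' ∧ j = j')) :
    a * z * z' * (((Q * j : ℕ) : ℤ) - ((Q * j' : ℕ) : ℤ)) + b * (z' - z) ≠ 0 := by
  intro h0
  by_cases hj : j = j'
  · subst hj
    have h1 : b * (z' - z) = 0 := by simpa using h0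
    rcases mul_eq_zero.1 h1 with h2 | h2
    · exact hb h2
    · exact h ⟨by linarith, rfl⟩
  · have h1 : a * z * z' * ((Q : ℤ) * ((j : ℤ) - j')) = b * (z - z') := by
      push_cast at h0
      linear_combination h0
    have h2 := congrArg abs h1
    rw [abs_mul, abs_mul, abs_mul, abs_mul, abs_mul] at h2
    have hQ' : 2 * |b| < (Q : ℤ) := by
      rw [← Int.natCast_natAbs]
      exact_mod_cast hQ
    have e1 : 1 ≤ |a| := Int.one_le_abs ha
    have e2 : 1 ≤ |z| := Int.one_le_abs hz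
    have e3 : 1 ≤ |z'| := Int.one_le_abs hz'
    have e4 : 1 ≤ |(j : ℤ) - j'| := Int.one_le_abs (by
      intro h3
      apply hj
      omega)
    have e5 : |z - z'| ≤ |z| + |z'| := abs_sub z z'
    have e6 : |z| + |z'| ≤ 2 * (|z| * |z'|) := by nlinarith
    have e7 : |(Q : ℤ)| = Q := abs_of_nonneg (by positivity)
    rw [e7] at h2
    have e8 : |b| * |z - z'| ≤ |b| * (2 * (|z| * |z'|)) := by
      apply mul_le_mul_of_nonneg_left _ (abs_nonneg b)
      linarith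
    have e9 : 0 < |z| * |z'| := by positivity
    have e10 : (|z| * |z'|) * Q ≤ |a| * |z| * |z'| * (Q * |(j : ℤ) - j'|) := by
      have e11 : |z| * |z'| ≤ |a| * |z| * |z'| := by
        rw [mul_assoc]
        exact le_mul_of_one_le_left e9.le e1
      have e12 : (Q : ℤ) ≤ Q * |(j : ℤ) - j'| := le_mul_of_one_le_right (by positivity) e4
      exact mul_le_mul e11 e12 (by positivity) (by positivity)
    nlinarith

/-- the forms of the family are not multiples of the forms `n + t_j` -/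
theorem form_ne (a b : ℤ) (ha : a ≠ 0) (hb : b ≠ 0) (Q : ℕ) (hQ : 2 * b.natAbs < Q) (z : ℤ) (hz : z ≠ 0)
    (j j' : ℕ) : a * z * (((Q * j : ℕ) : ℤ) - ((Q * j' : ℕ) : ℤ)) + b ≠ 0 := by
  intro h0
  by_cases hj : j = j'
  · subst hj
    apply hb
    simpa using h0
  · have h1 : a * z * ((Q : ℤ) * ((j : ℤ) - j')) = -b := by
      push_cast at h0
      linear_combination h0
    have h2 := congrArg abs h1
    rw [abs_mul, abs_mul, abs_mul, abs_neg] at h2
    have hQ' : 2 * |b| < (Q : ℤ) := by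
      rw [← Int.natCast_natAbs]
      exact_mod_cast hQ
    have e1 : 1 ≤ |a| := Int.one_le_abs ha
    have e2 : 1 ≤ |z| := Int.one_le_abs hz
    have e4 : 1 ≤ |(j : ℤ) - j'| := Int.one_le_abs (by
      intro h3
      apply hj
      omega)
    have e7 : |(Q : ℤ)| = Q := abs_of_nonneg (by positivity)
    rw [e7] at h2
    have e12 : (Q : ℤ) ≤ Q * |(j : ℤ) - j'| := le_mul_of_one_le_right (by positivity) e4
    have e13 : 1 ≤ |a| * |z| := by nlinarith
    have e14 : (Q : ℤ) ≤ |a| * |z| * (Q * |(j : ℤ) - j'|) := by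
      calc (Q : ℤ) = 1 * Q := (one_mul _).symm
        _ ≤ _ := mul_le_mul e13 e12 (by positivity) (by positivity)
    have := abs_nonneg b
    linarith

theorem cluster_core : ∃ η : ℝ, 0 < η ∧ ∀ m : ℕ, 1 ≤ m → ∃ K : ℕ, m ≤ K ∧ ∀ a b : ℤ, a ≠ 0 → b ≠ 0 →
    ∃ Q : ℕ, 1 ≤ Q ∧ ∃ c : ℝ, 0 < c ∧ ∀ᶠ X : ℝ in atTop,
    ∀ col : Fin K → Fin m, (∀ e, K ≤ 2 * m * fib col e) →
    ∀ bad : Finset ℕ, (bad.card : ℝ) ≤ X ^ (9 / 10 : ℝ) →
    ∃ n : ℕ, X < n ∧ (n : ℝ) ≤ 3 * X ∧ n ∉ bad ∧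
      (∃ E : Finset (Fin m), η * m ≤ E.card ∧ ∀ e ∈ E, ∃ j, col j = e ∧ (n + Q * (j : ℕ)).Prime) ∧
      ∀ (z : ℤ) (j : Fin K), z ≠ 0 → |(z : ℝ)| ≤ c * ff X →
        ∃ q : ℕ, q.Prime ∧ (q : ℝ) ≤ X ^ (1 / 1000 : ℝ) ∧ (q : ℤ) ∣ a * z * (n + Q * (j : ℕ)) + b := by
  obtain ⟨η, hη, heng⟩ := engine
  refine ⟨η, hη, fun m hm => ?_⟩
  obtain ⟨K, hmK, hengK⟩ := heng m hm
  refine ⟨K, hmK, fun a b ha hb => ?_⟩
  obtain ⟨Q, hQ⟩ : ∃ Q : ℕ, Q = K.factorial * (2 * b.natAbs + 1) := ⟨_, rfl⟩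
  have hKf : 1 ≤ K.factorial := Nat.factorial_pos K
  have hQb : 2 * b.natAbs < Q := by
    rw [hQ]
    calc 2 * b.natAbs < 1 * (2 * b.natAbs + 1) := by omega
      _ ≤ _ := Nat.mul_le_mul_right _ hKf
  have hQ1 : 1 ≤ Q := by omega
  refine ⟨Q, hQ1, ?_⟩
  set t : Fin K → ℕ := fun j => Q * (j : ℕ) with ht
  have htinj : Function.Injective t := by
    intro i j hij
    simp only [ht] at hij
    exact Fin.ext (Nat.eq_of_mul_eq_mul_left hQ1 hij)
  have htle : ∀ j, t j ≤ Q * K := fun j => Nat.mul_le_mul_left _ j.2.le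
  have hadm : ∀ p : ℕ, ∃ v : ℕ, p.Prime → ∀ j, ¬ p ∣ v + t j := by
    intro p
    by_cases hp : p.Prime
    swap
    · exact ⟨0, fun h => absurd h hp⟩
    by_cases hpK : p ≤ K
    · refine ⟨1, fun _ j hd => ?_⟩
      have h1 : p ∣ Q := by
        rw [hQ]
        exact ((Nat.Prime.dvd_factorial hp).2 hpK).mul_right _
      have h2 : p ∣ t j := h1.mul_right _
      exact hp.one_lt.ne' (Nat.dvd_one.1 ((Nat.dvd_add_left h2).1 hd))
    · push Not at hpK
      by_contra hcon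
      push Not at hcon
      have h1 : ∀ ρ : Fin p, ∃ j, p ∣ (ρ : ℕ) + t j := fun ρ => (hcon ρ).2
      choose f hf using h1
      have h2 : Function.Injective f := by
        intro x x' hxx
        have e1 := hf x
        have e2 := hf x'
        rw [← hxx] at e2
        have e3 : ((x : ℕ) + t (f x)) ≡ ((x' : ℕ) + t (f x)) [MOD p] :=
          ((Nat.modEq_zero_iff_dvd).2 e1).trans ((Nat.modEq_zero_iff_dvd).2 e2).symm
        have e4 : (x : ℕ) ≡ x' [MOD p] := Nat.ModEq.add_right_cancel' _ e3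
        exact Fin.ext (Nat.ModEq.eq_of_lt_of_lt e4 x.2 x'.2)
      have h3 := Fintype.card_le_of_injective f h2
      rw [Fintype.card_fin, Fintype.card_fin] at h3
      omega
  choose u hu using hadm
  obtain ⟨g, hg⟩ : ∃ g : ℕ, g = a.natAbs * b.natAbs * (Q * K + 1).factorial := ⟨_, rfl⟩
  have hg0 : g ≠ 0 := by
    rw [hg]
    exact mul_ne_zero (mul_ne_zero (Int.natAbs_ne_zero.2 ha) (Int.natAbs_ne_zero.2 hb)) (Nat.factorial_ne_zero _)
  have hag : a ∣ g := by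
    rw [← Int.natAbs_dvd, Int.natCast_dvd_natCast, hg, mul_assoc]
    exact dvd_mul_right _ _
  have hbg : b ∣ g := by
    rw [← Int.natAbs_dvd, Int.natCast_dvd_natCast, hg, mul_comm a.natAbs, mul_assoc]
    exact dvd_mul_right _ _
  have hfac : ∀ x : ℕ, x ≠ 0 → x ≤ Q * K + 1 → x ∣ g := by
    intro x hx hxl
    rw [hg]
    exact (Nat.dvd_factorial (Nat.pos_of_ne_zero hx) hxl).mul_left _
  have ht1 : ∀ j, (1 + t j) ∣ g := fun j => hfac _ (by omega) (by have := htle j; omega)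
  have htt : ∀ i j, i ≠ j → ((t i : ℤ) - t j) ∣ g := by
    intro i j hij
    rw [← Int.natAbs_dvd, Int.natCast_dvd_natCast]
    have h1 : t i ≠ t j := fun h => hij (htinj h)
    apply hfac
    · omega
    · have := htle i
      have := htle j
      omega
  obtain ⟨A, c₃, hA4, hc₃, hw⟩ := weightsT K (K + 4)
  obtain ⟨c, hc, hcov⟩ := coverFam K a b t g hg0 hag hbg ht1 htt (c₃ / 2) (by positivity) u
    (fun p hp j => hu p hp j)
  refine ⟨c, hc, ?_⟩
  obtain ⟨X1, hbv⟩ := bvrel_holds A 4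
  have t1 := Real.tendsto_log_atTop
  have t2 : Tendsto (fun y : ℝ => Real.log (Real.log y)) atTop atTop := t1.comp t1
  have hlog4 : ∀ᶠ s : ℝ in atTop, (Real.log s) ^ 4 ≤ s := by
    have h1 := (Real.isLittleO_pow_log_id_atTop (n := 4)).bound (one_pos)
    filter_upwards [h1, eventually_ge_atTop 1] with s h2 h3
    rw [Real.norm_eq_abs, id, Real.norm_eq_abs, one_mul, abs_of_nonneg (show (0:ℝ) ≤ s by linarith)] at h2
    exact (le_abs_self _).trans h2
  filter_upwards [hw 4, hcov, hengK 4 le_rfl, eventually_ge_atTop X1, eventually_ge_atTop 4,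
    t1.eventually_ge_atTop (2 / c₃), t1.eventually_ge_atTop (|(a : ℝ)| * (Q * K) + 2 * |(b : ℝ)| + 2 + Q * K),
    t1.eventually hlog4, t2.eventually_ge_atTop 1]
    with X hwX hcovX hgX hX1 hX4 hL1 hL2 hlg hll
  intro col hcol bad hbad
  obtain ⟨ps, S, hps, hS, hBV⟩ := hbv X hX1
  obtain ⟨r, M, U0, hM1, hM2, hM3, hr0, hU0, hU0c, hmain⟩ := hcovX ps S (goodP_mono (by omega) hps) hS
  set L := Real.log X with hL
  have hX0 : 0 < X := by linarith
  have hL1' : 1 ≤ L := by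
    have e1 : 0 ≤ |(a : ℝ)| * (Q * K) := by positivity
    have e2 : 0 ≤ |(b : ℝ)| := abs_nonneg _
    have e3 : (0 : ℝ) ≤ Q * K := by positivity
    linarith
  have hL0 : 0 < L := by linarith
  have hMr1 : (1 : ℝ) ≤ M := by exact_mod_cast hM3
  have hMsq : (M : ℝ) ^ 2 ≤ L ^ 3 := by
    calc (M : ℝ) ^ 2 ≤ (L * (Real.log L) ^ 2) ^ 2 := by gcongr
      _ = L ^ 2 * (Real.log L) ^ 4 := by ring
      _ ≤ L ^ 2 * L := by gcongr
      _ = L ^ 3 := by ring
  have hMM : (M : ℝ) ≤ (M : ℝ) ^ 2 := by nlinarith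
  -- sizes
  have hsize : ∀ (x : ℤ), |(x : ℝ)| ≤ |(a : ℝ)| * (M : ℝ) ^ 2 * (Q * K) + 2 * |(b : ℝ)| * (M : ℝ) ^ 2 → x ≠ 0 →
      ∀ p : ℕ, L ^ A < p → ¬ (p : ℤ) ∣ x := by
    intro x hx hx0 p hp hd
    have h1 := Int.le_of_dvd (abs_pos.2 hx0) ((dvd_abs _ _).2 hd)
    have h2 : (p : ℝ) ≤ |(x : ℝ)| := by
      have : ((p : ℤ) : ℝ) ≤ ((|x| : ℤ) : ℝ) := by exact_mod_cast h1
      rwa [Int.cast_abs, Int.cast_natCast] at this
    have h3 : |(a : ℝ)| * (M : ℝ) ^ 2 * (Q * K) + 2 * |(b : ℝ)| * (M : ℝ) ^ 2 ≤ L ^ 4 := by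
      calc |(a : ℝ)| * (M : ℝ) ^ 2 * (Q * K) + 2 * |(b : ℝ)| * (M : ℝ) ^ 2
          = (|(a : ℝ)| * (Q * K) + 2 * |(b : ℝ)|) * (M : ℝ) ^ 2 := by ring
        _ ≤ L * L ^ 3 := by
            apply mul_le_mul _ hMsq (by positivity) hL0.le
            have e3 : (0 : ℝ) ≤ Q * K := by positivity
            linarith
        _ = L ^ 4 := by ring
    have h4 : L ^ 4 ≤ L ^ A := pow_le_pow_right₀ hL1' hA4
    linarith
  have hK0 : 0 < K := by omega
  -- the survivors
  set x₀ : ℤ × Fin K := (1, ⟨0, hK0⟩) with hx₀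
  set V0 : Finset (ℤ × Fin K) := insert x₀ U0 with hV0
  have hV0b : ∀ x ∈ V0, x.1 ≠ 0 ∧ |(x.1 : ℝ)| ≤ M := by
    intro x hx
    rw [hV0, mem_insert] at hx
    rcases hx with rfl | hx
    · refine ⟨one_ne_zero, ?_⟩
      rw [hx₀]
      simpa using hMr1
    · have h1 := mem_box.1 (hU0 hx)
      refine ⟨h1.1, ?_⟩
      have h2 : |x.1| ≤ (M : ℤ) := abs_le.2 h1.2
      have : ((|x.1| : ℤ) : ℝ) ≤ ((M : ℤ) : ℝ) := by exact_mod_cast h2
      rwa [Int.cast_abs, Int.cast_natCast] at this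
  set U : Finset ℕ := V0.image Encodable.encode with hU
  have hUne : U.Nonempty := ⟨_, mem_image_of_mem _ (by rw [hV0]; exact mem_insert_self _ _)⟩
  have hUc : (U.card : ℝ) ≤ c₃ * L := by
    have h1 : (U.card : ℝ) ≤ U0.card + 1 := by
      exact_mod_cast card_image_le.trans (card_insert_le x₀ U0)
    have h2 : 1 ≤ c₃ / 2 * L := by
      rw [div_le_iff₀ hc₃] at hL1
      linarith
    have h3 : c₃ * L = c₃ / 2 * L + c₃ / 2 * L := by ring
    linarith
  have hdec : ∀ k : ↥U, ∃ x ∈ V0, Encodable.encode x = (k : ℕ) := by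
    intro k
    exact mem_image.1 k.2
  choose dec hdec1 hdec2 using hdec
  have hdecinj : ∀ k l, dec k = dec l → k = l := by
    intro k l h
    apply Subtype.ext
    rw [← hdec2 k, ← hdec2 l, h]
  obtain ⟨PP, hPP, hres⟩ := hwX ps S hps hBV t {ps} U (mem_singleton_self _) (by
    rw [card_singleton]
    have : 2 ≤ L := by
      have e1 : 0 ≤ |(a : ℝ)| * (Q * K) := by positivity
      have e2 : 0 ≤ |(b : ℝ)| := abs_nonneg _
      have e3 : (0 : ℝ) ≤ Q * K := by positivity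
      linarith
    calc (2 : ℝ) * ((1 : ℕ) : ℝ) = 2 ^ 1 := by norm_num
      _ ≤ L ^ 1 := by gcongr
      _ ≤ L ^ 4 := pow_le_pow_right₀ hL1' (by norm_num)) hUne hUc
  -- differences of the tuple
  have htd : ∀ j j' : Fin K, |(((t j : ℤ) - t j' : ℤ) : ℝ)| ≤ Q * K := by
    intro j j'
    have h1 := htle j
    have h2 := htle j'
    have h3 : |((t j : ℤ) - t j')| ≤ ((Q * K : ℕ) : ℤ) := by
      rw [abs_le]
      constructor <;> omega
    have : ((|((t j : ℤ) - t j')| : ℤ) : ℝ) ≤ (((Q * K : ℕ) : ℤ) : ℝ) := by exact_mod_cast h3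
    rw [Int.cast_abs] at this
    refine this.trans (le_of_eq ?_)
    push_cast
    ring
  have hnda : ∀ p ∈ PP, ∀ x ∈ V0, ¬ (p : ℤ) ∣ a * x.1 := by
    intro p hp x hx
    apply hsize _ _ (mul_ne_zero ha (hV0b x hx).1) p (hPP p hp).2.1
    push_cast
    rw [abs_mul]
    have h1 := (hV0b x hx).2
    have h2 : (1 : ℝ) ≤ Q * K := by
      have : 1 ≤ Q * K := Nat.mul_le_mul hQ1 hK0
      exact_mod_cast this
    have h3 : |(a : ℝ)| * |(x.1 : ℝ)| ≤ |(a : ℝ)| * (M : ℝ) ^ 2 :=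
      mul_le_mul_of_nonneg_left (h1.trans hMM) (abs_nonneg _)
    have h4 : |(a : ℝ)| * (M : ℝ) ^ 2 ≤ |(a : ℝ)| * (M : ℝ) ^ 2 * (Q * K) :=
      le_mul_of_one_le_right (by positivity) h2
    have h5 : 0 ≤ 2 * |(b : ℝ)| * (M : ℝ) ^ 2 := by positivity
    linarith
  -- the residues
  have hex : ∀ (q : ℕ) (k : ↥U), ∃ ρ : ℤ, q ∈ PP → (q : ℤ) ∣ a * (dec k).1 * (ρ + t (dec k).2) + b := by
    intro q k
    by_cases hq : q ∈ PP
    · obtain ⟨ρ, hρ⟩ := solve q (hPP q hq).1 (a * (dec k).1) (a * (dec k).1 * t (dec k).2 + b)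
        (hnda q hq _ (hdec1 k))
      refine ⟨ρ, fun _ => ?_⟩
      have e : a * (dec k).1 * ((ρ : ℤ) + t (dec k).2) + b =
          a * (dec k).1 * ρ + (a * (dec k).1 * t (dec k).2 + b) := by ring
      rw [e]
      exact hρ
    · exact ⟨0, fun h => absurd h hq⟩
  choose res hresd using hex
  obtain ⟨V, T, Z₁, M', M'', M₂, e₁, e₂, e₃, w1, w2, w3, w4, w5, w6, w7, w8, w9, we, w10, w11, w12, w13, w14, w15⟩ :=
    hres res
    (by
      intro q hq k l hkl hd
      have h1 := hresd q k hq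
      have h2 := hresd q l hq
      have hk := hV0b _ (hdec1 k)
      have hl := hV0b _ (hdec1 l)
      have hne := det_ne a b ha hb Q hQb (dec k).1 (dec l).1 hk.1 hl.1 (dec k).2 (dec l).2 (by
        rintro ⟨e1, e2⟩
        exact hkl (hdecinj k l (Prod.ext e1 (Fin.ext e2))))
      refine hsize _ ?_ hne q (hPP q hq).2.1 ?_
      · have e1 : ((a * (dec k).1 * (dec l).1 * (((Q * ((dec k).2 : ℕ) : ℕ) : ℤ) - ((Q * ((dec l).2 : ℕ) : ℕ) : ℤ)) +
            b * ((dec l).1 - (dec k).1) : ℤ) : ℝ) = (a : ℝ) * ((dec k).1 * (dec l).1) *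
            (((t (dec k).2 : ℤ) - t (dec l).2 : ℤ) : ℝ) + b * ((dec l).1 - (dec k).1) := by
          simp only [ht]
          push_cast
          ring
        rw [e1]
        refine (abs_add_le _ _).trans ?_
        rw [abs_mul, abs_mul, abs_mul, abs_mul]
        have e2 : |((dec k).1 : ℝ)| * |((dec l).1 : ℝ)| ≤ (M : ℝ) ^ 2 := by
          rw [pow_two]
          exact mul_le_mul hk.2 hl.2 (abs_nonneg _) (by positivity)
        have e3 : |((dec l).1 : ℝ) - (dec k).1| ≤ 2 * (M : ℝ) ^ 2 := by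
          refine (abs_sub _ _).trans ?_
          linarith [hk.2, hl.2]
        have e4 := htd (dec k).2 (dec l).2
        have e5 : |(a : ℝ)| * (|((dec k).1 : ℝ)| * |((dec l).1 : ℝ)|) *
            |(((t (dec k).2 : ℤ) - t (dec l).2 : ℤ) : ℝ)| ≤ |(a : ℝ)| * (M : ℝ) ^ 2 * (Q * K) := by
          gcongr
        have e6 : |(b : ℝ)| * |((dec l).1 : ℝ) - (dec k).1| ≤ |(b : ℝ)| * (2 * (M : ℝ) ^ 2) := by gcongr
        linarith
      · have e1 : a * (dec k).1 * (dec l).1 * (((Q * ((dec k).2 : ℕ) : ℕ) : ℤ) - ((Q * ((dec l).2 : ℕ) : ℕ) : ℤ)) +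
            b * ((dec l).1 - (dec k).1) = (dec l).1 * (a * (dec k).1 * (res q k + t (dec k).2) + b) -
            (dec k).1 * (a * (dec l).1 * (res q l + t (dec l).2) + b) -
            a * (dec k).1 * (dec l).1 * (res q k - res q l) := by
          simp only [ht]
          ring
        rw [e1]
        exact dvd_sub (dvd_sub (h1.mul_left _) (h2.mul_left _)) (hd.mul_left _))
    (by
      intro q hq k j hd
      have h1 := hresd q k hq
      have hk := hV0b _ (hdec1 k)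
      have hne := form_ne a b ha hb Q hQb (dec k).1 hk.1 (dec k).2 j
      refine hsize _ ?_ hne q (hPP q hq).2.1 ?_
      · have e1 : ((a * (dec k).1 * (((Q * ((dec k).2 : ℕ) : ℕ) : ℤ) - ((Q * (j : ℕ) : ℕ) : ℤ)) + b : ℤ) : ℝ) =
            (a : ℝ) * (dec k).1 * (((t (dec k).2 : ℤ) - t j : ℤ) : ℝ) + b := by
          simp only [ht]
          push_cast
          ring
        rw [e1]
        refine (abs_add_le _ _).trans ?_
        rw [abs_mul, abs_mul]
        have e4 := htd (dec k).2 j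
        have e5 : |(a : ℝ)| * |((dec k).1 : ℝ)| * |(((t (dec k).2 : ℤ) - t j : ℤ) : ℝ)| ≤
            |(a : ℝ)| * (M : ℝ) ^ 2 * (Q * K) := by
          have := hk.2.trans hMM
          gcongr
        have e6 : |(b : ℝ)| ≤ 2 * |(b : ℝ)| * (M : ℝ) ^ 2 := by
          have e7 : (1 : ℝ) ≤ (M : ℝ) ^ 2 := hMr1.trans hMM
          have e8 := abs_nonneg (b : ℝ)
          nlinarith
        linarith
      · have e1 : a * (dec k).1 * (((Q * ((dec k).2 : ℕ) : ℕ) : ℤ) - ((Q * (j : ℕ) : ℕ) : ℤ)) + b =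
            (a * (dec k).1 * (res q k + t (dec k).2) + b) - a * (dec k).1 * ((t j : ℤ) + res q k) := by
          simp only [ht]
          ring
        rw [e1]
        exact dvd_sub h1 (hd.mul_left _))
  obtain ⟨n, hXn, hn3, hnb, hnr, hTn, E, hE1, hE2⟩ := hgX ps S hps hS t htinj
    (fun j => by
      have h1 : ((t j : ℕ) : ℝ) ≤ ((Q * K : ℕ) : ℝ) := by exact_mod_cast htle j
      push_cast at h1
      have e1 : 0 ≤ |(a : ℝ)| * (Q * K) := by positivity
      have e2 : 0 ≤ |(b : ℝ)| := abs_nonneg _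
      have e3 : L ≤ L ^ 2 := by nlinarith
      linarith) r hr0
    V T Z₁ M' M'' M₂ e₁ e₂ e₃ w1 w2 w4 w5 w6 w7 w8 w9 we w10 w11 w12 w13 w14 w15 col hcol bad hbad
  refine ⟨n, hXn, hn3, hnb, ⟨E, hE1, hE2⟩, fun z j hz hzc => ?_⟩
  have hzM : |z| ≤ (M : ℤ) := by
    have h1 : ((|z| : ℤ) : ℝ) ≤ M := by
      rw [Int.cast_abs]
      exact hzc.trans hM1
    exact_mod_cast h1
  have hbox : (z, j) ∈ box K M := mem_box.2 ⟨hz, abs_le.1 hzM⟩
  have hcast : a * z * ((n : ℤ) + (Q : ℤ) * ((j : ℕ) : ℤ)) + b = a * z * ((n : ℤ) + t j) + b := by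
    simp only [ht]
    push_cast
    ring
  rw [hcast]
  by_cases hzU : (z, j) ∈ U0
  · have hkU : Encodable.encode ((z, j) : ℤ × Fin K) ∈ U :=
      mem_image_of_mem _ (by rw [hV0]; exact mem_insert_of_mem hzU)
    obtain ⟨q, hq, hqd⟩ := w3 n hTn ⟨_, hkU⟩
    refine ⟨q, (hPP q hq).1, (hPP q hq).2.2.1, ?_⟩
    have h1 := hresd q ⟨_, hkU⟩ hq
    have h2 : dec ⟨_, hkU⟩ = (z, j) := Encodable.encode_injective (hdec2 ⟨_, hkU⟩)
    rw [h2] at h1
    simp only at h1
    have h3 : a * z * ((n : ℤ) + t j) + b = a * z * ((n : ℤ) - res q ⟨_, hkU⟩) +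
        (a * z * (res q ⟨_, hkU⟩ + t j) + b) := by ring
    rw [h3]
    exact dvd_add (hqd.mul_left _) h1
  · obtain ⟨p, hp, hpy, -, hpd⟩ := hmain (z, j) hbox hzU
    exact ⟨p, hp, le_rpow_of_le_yy hX0 hL0.le hpy, hpd n hnr⟩

end Pool.Agent.Helper12.CL
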