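import Pool.Agent.Helper12.CL.Fam

set_option autoImplicit false
set_option maxHeartbeats 4000000

/-! # The covering of all but few of the forms `a z (n + t_j) + b`, `0 < |z| ≤ c f(X)` -/

namespace Pool.Agent.Helper12.CL

open Finset Filter Pool.Agent.H398R2.RK Pool.Agent.TH101.RG
open Pool.Agent.H378R2
open Pool.Agent.H312R2.RG (cov_ev ev_ff)
open Pool.Agent.H256R2.SC (ff)

open scoped Classical

theorem coverFam (K : ℕ) (a b : ℤ) (t : Fin K → ℕ) (g : ℕ) (hg0 : g ≠ 0)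
    (hag : a ∣ g) (hbg : b ∣ g) (ht1 : ∀ j, (1 + t j) ∣ g)
    (htt : ∀ i j, i ≠ j → ((t i : ℤ) - t j) ∣ g) (c₃ : ℝ) (hc₃ : 0 < c₃)
    (u : ℕ → ℕ) (hu : ∀ p, p.Prime → ∀ j, ¬ p ∣ u p + t j) : ∃ c : ℝ, 0 < c ∧
    ∀ᶠ X : ℝ in atTop, ∀ (ps : ℕ) (S : Finset ℕ), GoodP 2 ps → GoodS X S →
    ∃ (r M : ℕ) (U0 : Finset (ℤ × Fin K)), c * ff X ≤ M ∧
      (M : ℝ) ≤ Real.log X * (Real.log (Real.log X)) ^ 2 ∧ 1 ≤ M ∧
      (∀ j, (r + t j).Coprime (WW X S ps)) ∧ U0 ⊆ box K M ∧ (U0.card : ℝ) ≤ c₃ * Real.log X ∧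
      ∀ x ∈ box K M, x ∉ U0 → ∃ p : ℕ, p.Prime ∧ p ≤ yy X ∧ ¬ p ∣ g ∧
          ∀ n : ℕ, n ≡ r [MOD WW X S ps] → (p : ℤ) ∣ a * x.1 * (n + t x.2) + b := by
  set A0 : ℝ := ∑ p ∈ g.primeFactors, (1 : ℝ) / p with hA0
  obtain ⟨C, hC, C₂, hC₂, y₀, hrs⟩ := survFam K (A0 + 2) 8 (by norm_num) a b t g hag hbg ht1 htt
  have hC₂r : (1 : ℝ) ≤ C₂ := by exact_mod_cast hC₂
  set c₂ : ℝ := min (1 / (8000 * C₂)) (c₃ / (8 * C)) with hc₂
  have hc₂0 : 0 < c₂ := lt_min (by positivity) (by positivity)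
  have hc₂1 : C₂ * c₂ ≤ 1 / 8000 := by
    calc (C₂ : ℝ) * c₂ ≤ C₂ * (1 / (8000 * C₂)) := mul_le_mul_of_nonneg_left (min_le_left _ _) (by linarith)
      _ = 1 / 8000 := by field_simp
  have hc₂2 : c₂ ≤ c₃ / (8 * C) := min_le_right _ _
  obtain ⟨A₀, hev⟩ := cov_ev (c₂ / 10) (by positivity)
  obtain ⟨y₃, hv⟩ := eventually_atTop.1 vfacts
  refine ⟨c₂ / 2, by positivity, ?_⟩
  have t1 := Real.tendsto_log_atTop
  have t2 : Tendsto (fun y : ℝ => Real.log (Real.log y)) atTop atTop := t1.comp t1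
  filter_upwards [t2.eventually_ge_atTop A₀, t1.eventually_ge_atTop (2000 * ((y₀ : ℝ) + 2)),
    t2.eventually_ge_atTop (2 * ((g : ℝ) + 1)), t1.eventually_ge_atTop (2000 * (|y₃| + 2)),
    t2.eventually_ge_atTop 100, ev_ff c₂ hc₂0, eventually_gt_atTop 0] with X e1 e2 e3 e4 e5 e6 hX0
  intro ps S hps hS
  set T := Real.log X with hT
  have hT0 : 0 < T := by
    have : (0 : ℝ) ≤ y₀ := Nat.cast_nonneg _
    linarith
  set A := Real.log T with hA
  obtain ⟨a1, a2, a3, a4, a5, a6, a7, a8, a9⟩ := hev A e1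
  have hTe : T = Real.exp A := by rw [hA, Real.exp_log hT0]
  set B := Real.log A with hB
  set D' := Real.log B with hD
  have hff : ff X = T * A ^ 2 * D' / B ^ 2 := by
    unfold Pool.Agent.H256R2.SC.ff
    rfl
  have hA0' : 0 < A := by linarith
  have hB0 : 0 < B := by linarith
  have hD0 : 0 < D' := by linarith
  -- y
  set y := yy X with hy
  have hyT : (y : ℝ) ≤ T / 1000 := Nat.floor_le (by positivity)
  have hyT2 : T / 2000 ≤ y := by
    have h1 : T / 1000 < (y : ℝ) + 1 := Nat.lt_floor_add_one _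
    have h2 : 1 ≤ T / 2000 := by
      rw [le_div_iff₀ (by norm_num), hTe]; linarith
    linarith [show T / 1000 = T / 2000 + T / 2000 by ring]
  have hyy0 : y₀ ≤ y := by
    have : (y₀ : ℝ) ≤ y := by linarith
    exact_mod_cast this
  have hyy3 : y₃ ≤ y := by
    have := le_abs_self y₃
    linarith
  obtain ⟨hv1, hv2, hv3⟩ := hv y hyy3
  have hy0 : (0 : ℝ) < y := by
    have : (0 : ℝ) ≤ y₀ := Nat.cast_nonneg _
    linarith
  have hly1 : Real.log y ≤ A := by
    rw [hA]; apply Real.log_le_log hy0; linarith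
  have hly2 : A / 2 ≤ Real.log y := by
    have h1 : Real.log (T / 2000) ≤ Real.log y := Real.log_le_log (by positivity) hyT2
    rw [Real.log_div hT0.ne' (by norm_num)] at h1
    linarith
  have hly0 : 0 < Real.log y := by linarith
  have hl2y1 : Real.log (Real.log y) ≤ B := Real.log_le_log hly0 hly1
  have hl2y2 : B / 2 ≤ Real.log (Real.log y) := by
    have h1 : Real.log (A / 2) ≤ Real.log (Real.log y) := Real.log_le_log (by positivity) hly2
    rw [Real.log_div hA0'.ne' (by norm_num)] at h1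
    linarith
  have hl2y0 : 0 < Real.log (Real.log y) := by linarith
  have hl3y2 : D' / 2 ≤ Real.log (Real.log (Real.log y)) := by
    have h1 : Real.log (B / 2) ≤ Real.log (Real.log (Real.log y)) := Real.log_le_log (by positivity) hl2y2
    rw [Real.log_div hB0.ne' (by norm_num)] at h1
    linarith
  -- H
  set H : ℕ := ⌊c₂ * ff X⌋₊ with hH
  have hff0 : 0 ≤ c₂ * ff X := by rw [hff]; positivity
  have hHle : (H : ℝ) ≤ c₂ * ff X := Nat.floor_le hff0
  have hT1 : 10 * T ≤ c₂ * ff X := by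
    rw [hff, mul_div_assoc', le_div_iff₀ (by positivity)]
    have h1 : 10 * T * B ^ 2 ≤ 10 * T * (c₂ / 10 * A ^ 2) := by gcongr
    have h2 : T * (c₂ * A ^ 2) ≤ T * (c₂ * A ^ 2) * D' := by
      have h3 : 0 ≤ T * (c₂ * A ^ 2) := by positivity
      exact le_mul_of_one_le_right h3 a4
    linarith [show c₂ * (T * A ^ 2 * D') = T * (c₂ * A ^ 2) * D' by ring,
      show 10 * T * (c₂ / 10 * A ^ 2) = T * (c₂ * A ^ 2) by ring]
  have hT2000 : 2000 ≤ T := by rw [hTe]; exact a9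
  have hyH : y ≤ H := by
    rw [hH]
    apply Nat.le_floor
    have : (y : ℝ) ≤ T := by linarith
    linarith
  have hHy : ((C₂ * H : ℕ) : ℝ) ≤ y * (Real.log y) ^ 2 := by
    push_cast
    refine (mul_le_mul_of_nonneg_left hHle (by linarith)).trans ?_
    have h1 : T / 2000 * (A / 2) ^ 2 ≤ y * (Real.log y) ^ 2 := by gcongr
    refine le_trans ?_ h1
    rw [← mul_assoc, hff, mul_div_assoc', div_le_iff₀ (by positivity)]
    have h2 : D' ≤ B ^ 2 := a6.trans (le_self_pow₀ a2 two_ne_zero)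
    have h3 : C₂ * c₂ * (T * A ^ 2 * D') ≤ 1 / 8000 * (T * A ^ 2 * B ^ 2) := by gcongr
    linarith [show T / 2000 * (A / 2) ^ 2 * B ^ 2 = 1 / 8000 * (T * A ^ 2 * B ^ 2) by ring]
  have hHlow : c₂ * ff X < (H : ℝ) + 1 := Nat.lt_floor_add_one _
  have hH1 : 1 ≤ H := by
    have : (1 : ℝ) ≤ y := by linarith
    have : 1 ≤ y := by exact_mod_cast this
    omega
  have hNc : c₂ / 2 * ff X ≤ H := by
    have : (1 : ℝ) ≤ H := by exact_mod_cast hH1
    linarith
  -- the set F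
  set F : Finset ℕ := (Icc 1 y).filter (fun p : ℕ => p.Prime ∧ (p ∈ S ∨ p = ps ∨ p ∣ g)) with hF
  have hFmem : ∀ p : ℕ, p ∈ F ↔ (p ≤ y ∧ p.Prime ∧ (p ∈ S ∨ p = ps ∨ p ∣ g)) := by
    intro p
    rw [hF, mem_filter, mem_Icc]
    constructor
    · rintro ⟨⟨_, h1⟩, h2⟩; exact ⟨h1, h2⟩
    · rintro ⟨h1, h2⟩; exact ⟨⟨h2.1.pos, h1⟩, h2⟩
  have hpos : ∀ i : ℕ, 0 ≤ (1 : ℝ) / (i : ℝ) := fun i => by positivity
  set Ps : Finset ℕ := if ps.Prime then {ps} else ∅ with hPs
  have hPs2 : ∀ q ∈ Ps, q = ps ∧ ps.Prime := by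
    intro q hq
    rw [hPs] at hq
    split_ifs at hq with h
    · exact ⟨mem_singleton.1 hq, h⟩
    · simp at hq
  have hFsub : F ⊆ (S ∪ Ps) ∪ g.primeFactors := by
    intro p hp
    rw [hFmem] at hp
    obtain ⟨h1, h2, h3⟩ := hp
    rw [mem_union, mem_union]
    rcases h3 with h | h | h
    · exact Or.inl (Or.inl h)
    · left; right
      rw [hPs, ← h, if_pos h2]
      simp
    · right
      rw [Nat.mem_primeFactors]
      exact ⟨h2, h, hg0⟩
  have hSsum : ∑ q ∈ S, (1 : ℝ) / q ≤ 6 / A ^ 2 := hS.2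
  have hA100 : 100 ≤ A := by linarith
  have hFsum : ∑ q ∈ F, (1 : ℝ) / q ≤ A0 + 2 := by
    have h1 : ∑ q ∈ F, (1 : ℝ) / q ≤ (∑ q ∈ S, (1 : ℝ) / q + ∑ q ∈ Ps, (1 : ℝ) / q) +
        ∑ q ∈ g.primeFactors, (1 : ℝ) / q := by
      refine (sum_le_sum_of_subset_of_nonneg hFsub (fun i _ _ => hpos i)).trans ?_
      refine (sum_union_le' _ hpos).trans ?_
      apply add_le_add_left
      exact sum_union_le' _ hpos
    have h2 : ∑ q ∈ Ps, (1 : ℝ) / q ≤ 1 := by
      rw [hPs]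
      split_ifs with h
      · rw [sum_singleton, div_le_one (by exact_mod_cast h.pos)]
        exact_mod_cast h.one_lt.le
      · simp
    have h3 : ∑ q ∈ S, (1 : ℝ) / q ≤ 1 := by
      refine hSsum.trans ?_
      rw [div_le_one (by positivity)]
      have h4 : (100 : ℝ) ^ 2 ≤ A ^ 2 := pow_le_pow_left₀ (by norm_num) hA100 2
      exact le_trans (by norm_num) h4
    linarith
  have hglog : (g : ℝ) + 1 ≤ Real.log y := by linarith
  have hFtail : ∑ q ∈ F.filter (fun q : ℕ => V0 y < Real.log q), (1 : ℝ) / q ≤ 8 / Real.log y := by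
    have hV0' : Real.exp (-(V0 y)) ≤ 1 / (Real.log y) ^ 4 := by
      rw [Real.exp_neg, ← one_div]
      exact one_div_le_one_div_of_le (by positivity) hv2
    have hbig : ∀ q : ℕ, 0 < q → V0 y < Real.log q → (1 : ℝ) / q ≤ 1 / (Real.log y) ^ 4 := by
      intro q hq0 hq
      have hq0' : (0 : ℝ) < q := by exact_mod_cast hq0
      refine le_trans ?_ hV0'
      rw [Real.exp_neg, ← one_div]
      exact one_div_le_one_div_of_le (Real.exp_pos _) ((Real.lt_log_iff_exp_lt hq0').1 hq).le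
    have h1 : ∑ q ∈ F.filter (fun q : ℕ => V0 y < Real.log q), (1 : ℝ) / q ≤
        ∑ q ∈ S, (1 : ℝ) / q + ∑ q ∈ Ps.filter (fun q : ℕ => V0 y < Real.log q), (1 : ℝ) / q := by
      have hsub : F.filter (fun q : ℕ => V0 y < Real.log q) ⊆
          S ∪ Ps.filter (fun q : ℕ => V0 y < Real.log q) := by
        intro p hp
        rw [mem_filter] at hp
        have h2 := hFsub hp.1
        rw [mem_union, mem_union] at h2
        rw [mem_union, mem_filter]
        rcases h2 with (h | h) | h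
        · exact Or.inl h
        · exact Or.inr ⟨h, hp.2⟩
        · exfalso
          have h3 : p ≤ g := Nat.le_of_dvd (Nat.pos_of_ne_zero hg0) (Nat.dvd_of_mem_primeFactors h)
          have hp0 : (0 : ℝ) < p := by exact_mod_cast (Nat.prime_of_mem_primeFactors h).pos
          have h4 : (p : ℝ) ≤ Real.exp (V0 y) := by
            have h5 : (p : ℝ) ≤ g := by exact_mod_cast h3
            have h6 : Real.log y ≤ (Real.log y) ^ 4 := by
              calc Real.log y = (Real.log y) ^ 1 := (pow_one _).symm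
                _ ≤ (Real.log y) ^ 4 := pow_le_pow_right₀ (by linarith) (by norm_num)
            linarith
          have h5 := Real.log_le_log hp0 h4
          rw [Real.log_exp] at h5
          linarith [hp.2]
      refine (sum_le_sum_of_subset_of_nonneg hsub (fun i _ _ => hpos i)).trans ?_
      exact sum_union_le' _ hpos
    have hl4 : 1 / (Real.log y) ^ 4 ≤ 1 / Real.log y := by
      apply one_div_le_one_div_of_le hly0
      calc Real.log y = (Real.log y) ^ 1 := (pow_one _).symm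
        _ ≤ (Real.log y) ^ 4 := pow_le_pow_right₀ (by linarith) (by norm_num)
    have h2 : ∑ q ∈ Ps.filter (fun q : ℕ => V0 y < Real.log q), (1 : ℝ) / q ≤ 1 / Real.log y := by
      refine le_trans ?_ hl4
      have h3 : (Ps.filter (fun q : ℕ => V0 y < Real.log q)).card ≤ 1 := by
        refine (card_le_card (filter_subset _ _)).trans ?_
        rw [hPs]
        split_ifs <;> simp
      have h4 : ∑ q ∈ Ps.filter (fun q : ℕ => V0 y < Real.log q), (1 : ℝ) / q ≤
          (Ps.filter (fun q : ℕ => V0 y < Real.log q)).card • (1 / (Real.log y) ^ 4) := by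
        apply sum_le_card_nsmul
        intro q hq
        rw [mem_filter] at hq
        obtain ⟨h5, h6⟩ := hPs2 q hq.1
        exact hbig q (by rw [h5]; exact h6.pos) hq.2
      rw [nsmul_eq_mul] at h4
      have h5 : ((Ps.filter (fun q : ℕ => V0 y < Real.log q)).card : ℝ) ≤ 1 := by exact_mod_cast h3
      have h6 : 0 ≤ 1 / (Real.log y) ^ 4 := by positivity
      exact h4.trans (mul_le_of_le_one_left h6 h5)
    have h4 : ∑ q ∈ S, (1 : ℝ) / q ≤ 6 / Real.log y := by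
      refine hSsum.trans ?_
      apply div_le_div_of_nonneg_left (by norm_num) hly0
      exact hly1.trans (le_self_pow₀ (le_trans (by norm_num) hA100) two_ne_zero)
    have h6 : 8 / Real.log y = 6 / Real.log y + 1 / Real.log y + 1 / Real.log y := by ring
    have h7 : 0 ≤ 1 / Real.log y := by positivity
    linarith
  have hgy : ∀ p : ℕ, p.Prime → p ∣ g → p ∈ F := by
    intro p hp hpg
    rw [hFmem]
    refine ⟨?_, hp, Or.inr (Or.inr hpg)⟩
    have h3 : p ≤ g := Nat.le_of_dvd (Nat.pos_of_ne_zero hg0) hpg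
    have h5 : (p : ℝ) ≤ g := by exact_mod_cast h3
    have h6 : Real.log y ≤ y := by
      have := Real.log_le_sub_one_of_pos hy0
      linarith
    have : (p : ℝ) ≤ y := by linarith
    exact_mod_cast this
  obtain ⟨β, hβ1, hβ2⟩ := hrs y hyy0 F (fun q hq => ((hFmem q).1 hq).2.1) hFsum hFtail hgy H hyH hHy
  have hcardle : C * H * (Real.log (Real.log y)) ^ 2 /
        ((Real.log y) ^ 2 * Real.log (Real.log (Real.log y))) ≤ c₃ * T := by
    calc C * H * (Real.log (Real.log y)) ^ 2 /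
        ((Real.log y) ^ 2 * Real.log (Real.log (Real.log y)))
        ≤ C * (c₂ * ff X) * B ^ 2 / ((A / 2) ^ 2 * (D' / 2)) := by gcongr
      _ = 8 * C * c₂ * T := by
          rw [hff]
          field_simp
          ring
      _ ≤ 8 * C * (c₃ / (8 * C)) * T := by gcongr
      _ = c₃ * T := by field_simp
  -- residues
  have hρ : ∀ p : ℕ, ∃ ρ : ℕ, p ∈ PW X S ps → ((∀ j, ¬ p ∣ ρ + t j) ∧ (p ∉ F → ρ = β p)) := by
    intro p
    by_cases hp : p ∈ PW X S ps
    · obtain ⟨hpy, hpp, hpS, hpps⟩ := mem_PW.1 hp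
      by_cases hpF : p ∈ F
      · exact ⟨u p, fun _ => ⟨hu p hpp, fun h => absurd hpF h⟩⟩
      · exact ⟨β p, fun _ => ⟨(hβ1 p hpp hpy hpF).2, fun _ => rfl⟩⟩
    · exact ⟨0, fun h => absurd h hp⟩
  choose ρ hρ using hρ
  obtain ⟨r, hr⟩ := Nat.chineseRemainderOfFinset ρ (fun p => p) (PW X S ps)
    (fun p hp => (mem_PW.1 hp).2.1.ne_zero)
    (fun p hp q hq hpq => (Nat.coprime_primes (mem_PW.1 (by simpa using hp)).2.1
      (mem_PW.1 (by simpa using hq)).2.1).2 hpq)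
  refine ⟨r, H, (box K H).filter (fun x => ∀ p : ℕ, p.Prime → p ≤ y → p ∉ F →
        ¬ (p : ℤ) ∣ a * x.1 * (β p + t x.2) + b), hNc, ?_, hH1, ?_, filter_subset _ _, hβ2.trans hcardle, ?_⟩
  · have h1 : (H : ℝ) ≤ C₂ * H := by
      exact le_mul_of_one_le_left (Nat.cast_nonneg H) hC₂r
    have h2 : (C₂ : ℝ) * H ≤ y * (Real.log y) ^ 2 := by exact_mod_cast hHy
    refine (h1.trans h2).trans ?_
    have h3 : (y : ℝ) ≤ T := by linarith
    gcongr
  · intro j
    unfold WW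
    rw [Nat.coprime_prod_right_iff]
    intro p hp
    have hpp := (mem_PW.1 hp).2.1
    rw [Nat.coprime_comm, Nat.Prime.coprime_iff_not_dvd hpp]
    intro hd
    apply (hρ p hp).1 j
    have h1 : r + t j ≡ ρ p + t j [MOD p] := (hr p hp).add_right (t j)
    exact (Nat.modEq_zero_iff_dvd).1 (h1.symm.trans ((Nat.modEq_zero_iff_dvd).2 hd))
  · intro x hx hxU
    rw [mem_filter] at hxU
    push Not at hxU
    obtain ⟨p, hpp, hpy, hpF, hpk⟩ := hxU hx
    refine ⟨p, hpp, hpy, fun h => hpF (hgy p hpp h), ?_⟩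
    intro n hn
    have hpPW : p ∈ PW X S ps := mem_PW.2 ⟨hpy, hpp, fun h => hpF ((hFmem p).2 ⟨hpy, hpp, Or.inl h⟩),
      fun h => hpF ((hFmem p).2 ⟨hpy, hpp, Or.inr (Or.inl h)⟩)⟩
    have h1 : n ≡ ρ p [MOD p] := (hn.of_dvd ((prime_dvd_WW hpp).2 hpPW)).trans (hr p hpPW)
    rw [(hρ p hpPW).2 hpF] at h1
    have h3 : (p : ℤ) ∣ (n : ℤ) - β p := (Nat.modEq_iff_dvd.1 h1.symm)
    have h5 : a * x.1 * (n + t x.2) + b = a * x.1 * ((n : ℤ) - β p) + (a * x.1 * (β p + t x.2) + b) := by ring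
    rw [h5]
    exact dvd_add (h3.mul_left _) hpk

end Pool.Agent.Helper12.CL
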