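import Pool.Agent.Helper12.CL.Params
import Pool.Agent.TH101.RG.Cov

set_option autoImplicit false
set_option maxHeartbeats 4000000

/-! # A choice of residue classes for which few of the forms `a z (n + t_j) + b` survive -/

namespace Pool.Agent.Helper12.CL

open Finset Pool.Agent.H318R2.Cr Pool.Agent.H398R2.RK Pool.Agent.TH101.RG

open scoped Classical

/-- the pairs `(z, j)`, `0 < |z| ≤ M` -/
noncomputable def box (K M : ℕ) : Finset (ℤ × Fin K) := ((Icc (-(M : ℤ)) M).erase 0) ×ˢ univ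

theorem mem_box {K M : ℕ} {x : ℤ × Fin K} : x ∈ box K M ↔ x.1 ≠ 0 ∧ -(M : ℤ) ≤ x.1 ∧ x.1 ≤ M := by
  unfold box
  rw [mem_product, mem_erase, mem_Icc]
  simp

theorem card_line (K M : ℕ) (s : Finset (ℤ × Fin K)) (hs : s ⊆ box K M) (p : Fin K → ℤ → Prop)
    (hp : ∀ x ∈ s, p x.2 x.1) (c : ℕ)
    (hc : ∀ (j : Fin K) (s' : Finset ℤ), (∀ z ∈ s', -(M : ℤ) ≤ z ∧ z ≤ M ∧ p j z) → s'.card ≤ c) :
    s.card ≤ K * c := by
  have h1 : s ⊆ univ.biUnion (fun j : Fin K => ((Icc (-(M : ℤ)) M).filter (fun z => p j z)).image (fun z => (z, j))) := by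
    intro x hx
    rw [mem_biUnion]
    refine ⟨x.2, mem_univ _, ?_⟩
    rw [mem_image]
    have := mem_box.1 (hs hx)
    exact ⟨x.1, by rw [mem_filter, mem_Icc]; exact ⟨this.2, hp x hx⟩, rfl⟩
  refine (card_le_card h1).trans (card_biUnion_le.trans ?_)
  refine (sum_le_card_nsmul _ _ c (fun j _ => card_image_le.trans (hc j _ ?_))).trans (le_of_eq ?_)
  · intro z hz
    rw [mem_filter, mem_Icc] at hz
    exact ⟨hz.1.1, hz.1.2, hz.2⟩
  rw [card_univ, Fintype.card_fin, smul_eq_mul]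

theorem survFam (K : ℕ) (C₀ C₁ : ℝ) (hC₁ : 0 ≤ C₁) (a b : ℤ) (t : Fin K → ℕ) (g : ℕ)
    (hag : a ∣ g) (hbg : b ∣ g) (ht1 : ∀ j, (1 + t j) ∣ g)
    (htt : ∀ i j, i ≠ j → ((t i : ℤ) - t j) ∣ g) :
    ∃ C : ℝ, 0 < C ∧ ∃ C₂ : ℕ, 1 ≤ C₂ ∧ ∃ y₀ : ℕ, ∀ y : ℕ, y₀ ≤ y → ∀ F : Finset ℕ,
    (∀ q ∈ F, q.Prime) → ∑ q ∈ F, (1 : ℝ) / q ≤ C₀ →
    ∑ q ∈ F.filter (fun q : ℕ => V0 y < Real.log q), (1 : ℝ) / q ≤ C₁ / Real.log y →
    (∀ p : ℕ, p.Prime → p ∣ g → p ∈ F) →
    ∀ M : ℕ, y ≤ M → ((C₂ * M : ℕ) : ℝ) ≤ y * (Real.log y) ^ 2 →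
    ∃ ρ : ℕ → ℕ, (∀ p : ℕ, p.Prime → p ≤ y → p ∉ F → ρ p < p ∧ ∀ j, ¬ p ∣ ρ p + t j) ∧
      (((box K M).filter (fun x => ∀ p : ℕ, p.Prime → p ≤ y → p ∉ F →
        ¬ (p : ℤ) ∣ a * x.1 * (ρ p + t x.2) + b)).card : ℝ) ≤
      C * M * (Real.log (Real.log y)) ^ 2 / ((Real.log y) ^ 2 * Real.log (Real.log (Real.log y))) := by
  obtain ⟨C, hC, y₀, hmain⟩ := greedyPrimes K C₀ C₁ hC₁
  set C₂ : ℕ := a.natAbs * (1 + ∑ j, t j) + b.natAbs + 1 with hC₂
  refine ⟨2 * K * C * C₂ * C * 8 + 8 * (K * (K + 1)) + 1, by positivity, C₂, by omega, max y₀ 2, fun y hy F hF hFsum hFtail hFg M hyM hM => ?_⟩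
  obtain ⟨hbig, hKv, hy2, hvy, hly, hτ0, hlt0, hτ1, hmain⟩ := hmain y ((le_max_left _ _).trans hy)
  obtain ⟨P, hP, hPprod, hPsq, hR⟩ := hmain F hF hFsum hFtail
  set τ := Real.log (Real.log y) with hτ
  set v₀ : ℝ := (Real.log y) ^ 2 with hv₀
  have hv₀0 : 0 < v₀ := by positivity
  have hM1 : 1 ≤ M := by omega
  have hMr : (1 : ℝ) ≤ M := by exact_mod_cast hM1
  have hM0 : (0 : ℝ) < M := by linarith
  have hCM : M ≤ C₂ * M := Nat.le_mul_of_pos_left _ (by omega)
  have hRc := hR (C₂ * M) (hyM.trans hCM) hM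
  have hng : ∀ p : ℕ, p.Prime → p ∉ F → ¬ p ∣ g := fun p hp hpF h => hpF (hFg p hp h)
  have hna : ∀ p : ℕ, p.Prime → p ∉ F → ¬ (p : ℤ) ∣ a := fun p hp hpF h =>
    hng p hp hpF (by exact_mod_cast h.trans hag)
  have hnb : ∀ p : ℕ, p.Prime → p ∉ F → ¬ (p : ℤ) ∣ b := fun p hp hpF h =>
    hng p hp hpF (by exact_mod_cast h.trans hbg)
  -- allowed classes
  set A : ℕ → Finset ℕ := fun p => (range p).filter (fun ρ => ∀ j, ¬ p ∣ ρ + t j) with hA
  have hAmem : ∀ p ρ, ρ ∈ A p ↔ ρ < p ∧ ∀ j, ¬ p ∣ ρ + t j := by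
    intro p ρ
    rw [hA, mem_filter, mem_range]
  have hAne : ∀ p ∈ P, (A p).Nonempty := by
    intro p hp
    by_contra hcon
    rw [not_nonempty_iff_eq_empty] at hcon
    have h1 : ∀ ρ : Fin p, ∃ j, p ∣ (ρ : ℕ) + t j := by
      intro ρ
      by_contra h
      push Not at h
      have : (ρ : ℕ) ∈ A p := (hAmem p ρ).2 ⟨ρ.2, h⟩
      rw [hcon] at this
      simp at this
    choose f hf using h1
    have h2 : Function.Injective f := by
      intro x x' hxx
      have e1 := hf x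
      have e2 := hf x'
      rw [← hxx] at e2
      have e3 : ((x : ℕ) + t (f x)) ≡ ((x' : ℕ) + t (f x)) [MOD p] :=
        ((Nat.modEq_zero_iff_dvd).2 e1).trans ((Nat.modEq_zero_iff_dvd).2 e2).symm
      have e4 : (x : ℕ) ≡ x' [MOD p] := Nat.ModEq.add_right_cancel' _ e3
      exact Fin.ext (Nat.ModEq.eq_of_lt_of_lt e4 x.2 x'.2)
    have h3 := Fintype.card_le_of_injective f h2
    rw [Fintype.card_fin, Fintype.card_fin] at h3
    have h4 : (K : ℝ) < p := hKv.trans_lt (hP p hp).2.1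
    have h5 : K < p := by exact_mod_cast h4
    omega
  -- the killing classes
  set cls : ℤ × Fin K → ℕ → ℕ := fun x p =>
    if h : ∃ ρ : ℕ, ρ < p ∧ (p : ℤ) ∣ a * x.1 * (ρ + t x.2) + b then h.choose else p with hcls
  have hcls1 : ∀ x p, cls x p < p → (p : ℤ) ∣ a * x.1 * (cls x p + t x.2) + b := by
    intro x p h
    simp only [hcls] at h ⊢
    split_ifs at h ⊢ with hh
    · exact hh.choose_spec.2
    · omega
  have hcls2 : ∀ x p, p.Prime → p ∉ F → ¬ cls x p ∈ A p → (p : ℤ) ∣ x.1 ∨ ∃ j', j' ≠ x.2 ∧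
      (p : ℤ) ∣ (a * ((t x.2 : ℤ) - t j')) * x.1 + b := by
    intro x p hp hpF hcA
    by_cases hz : (p : ℤ) ∣ x.1
    · exact Or.inl hz
    right
    have hex : ∃ ρ : ℕ, ρ < p ∧ (p : ℤ) ∣ a * x.1 * (ρ + t x.2) + b := by
      have h1 : ¬ (p : ℤ) ∣ a * x.1 := by
        intro h
        rcases (Nat.prime_iff_prime_int.1 hp).dvd_or_dvd h with h | h
        · exact hna p hp hpF h
        · exact hz h
      obtain ⟨ρ, hρ⟩ := solve p hp (a * x.1) (a * x.1 * t x.2 + b) h1
      refine ⟨ρ % p, Nat.mod_lt _ hp.pos, ?_⟩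
      have h2 : (p : ℤ) ∣ (ρ : ℤ) - ((ρ % p : ℕ) : ℤ) := by
        have := Int.emod_emod_of_dvd (ρ : ℤ) (dvd_refl (p : ℤ))
        push_cast
        exact Int.dvd_self_sub_emod
      have h3 : a * x.1 * (((ρ % p : ℕ) : ℤ) + t x.2) + b = (a * x.1 * ρ + (a * x.1 * t x.2 + b)) -
          a * x.1 * ((ρ : ℤ) - ((ρ % p : ℕ) : ℤ)) := by ring
      rw [h3]
      exact dvd_sub hρ (h2.mul_left _)
    have hlt : cls x p < p := by
      simp only [hcls]
      rw [dif_pos hex]
      exact hex.choose_spec.1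
    have hroot := hcls1 x p hlt
    rw [hAmem] at hcA
    push Not at hcA
    obtain ⟨j', hj'⟩ := hcA hlt
    have hj2 : (p : ℤ) ∣ (cls x p : ℤ) + t j' := by exact_mod_cast hj'
    have h4 : (p : ℤ) ∣ (a * ((t x.2 : ℤ) - t j')) * x.1 + b := by
      have h5 : (a * ((t x.2 : ℤ) - t j')) * x.1 + b = (a * x.1 * (cls x p + t x.2) + b) -
          a * x.1 * ((cls x p : ℤ) + t j') := by ring
      rw [h5]
      exact dvd_sub hroot (hj2.mul_left _)
    refine ⟨j', ?_, h4⟩
    rintro rfl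
    apply hnb p hp hpF
    simpa using h4
  -- the survivors of the first step
  set R : Finset (ℤ × Fin K) := (box K M).filter (fun x => ∀ p : ℕ, p.Prime → p ≤ y → p ∉ F → p ∉ P →
    ¬ (p : ℤ) ∣ a * x.1 * (1 + t x.2) + b) with hRd
  obtain ⟨β, hβ, hβc⟩ := greedyI cls P A hAne R
  refine ⟨fun p => if p ∈ P then β p else 1, ?_, ?_⟩
  · intro p hp hpy hpF
    by_cases hpP : p ∈ P
    · simp only [hpP, if_true]
      exact (hAmem p (β p)).1 (hβ p hpP)
    · simp only [hpP, if_false]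
      exact ⟨hp.one_lt, fun j hj => hng p hp hpF (hj.trans (ht1 j))⟩
  have hsub : (box K M).filter (fun x => ∀ p : ℕ, p.Prime → p ≤ y → p ∉ F →
      ¬ (p : ℤ) ∣ a * x.1 * (((if p ∈ P then β p else 1 : ℕ) : ℤ) + t x.2) + b) ⊆
      R.filter (fun x => ∀ p ∈ P, ¬ cls x p = β p) := by
    intro x hx
    rw [mem_filter] at hx
    rw [mem_filter, hRd, mem_filter]
    refine ⟨⟨hx.1, fun p hp hpy hpF hpP => ?_⟩, fun p hpP heq => ?_⟩
    · have := hx.2 p hp hpy hpF
      rw [if_neg hpP] at this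
      push_cast at this
      exact this
    · obtain ⟨q1, q2, q3, q4, q5⟩ := hP p hpP
      have := hx.2 p q1 q3 q4
      rw [if_pos hpP] at this
      apply this
      rw [← heq]
      apply hcls1
      rw [heq]
      exact ((hAmem p (β p)).1 (hβ p hpP)).1
  refine (Nat.cast_le.2 (card_le_card hsub)).trans (hβc.trans ?_)
  -- the size of R
  have hRcard : (R.card : ℝ) ≤ 2 * K * (C * (C₂ * M : ℕ) / Real.log y) := by
    set RN := (range (C₂ * M + 1)).filter (fun k => ∀ p : ℕ, p.Prime → p ≤ y → p ∉ F → p ∉ P → ¬ p ∣ k) with hRN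
    have h1 : R.card ≤ K * (2 * RN.card) := by
      apply card_line K M R (filter_subset _ _) (fun j z => z ≠ 0 ∧ ∀ p : ℕ, p.Prime → p ≤ y → p ∉ F → p ∉ P →
        ¬ (p : ℤ) ∣ a * z * (1 + t j) + b)
      · intro x hx
        rw [hRd, mem_filter] at hx
        exact ⟨(mem_box.1 hx.1).1, hx.2⟩
      · intro j s' hs'
        apply card_le_mul_card_image_of_maps_to (f := fun z : ℤ => (a * z * (1 + t j) + b).natAbs)
        · intro z hz
          obtain ⟨hz1, hz2, hz3, hz4⟩ := hs' z hz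
          rw [hRN, mem_filter, mem_range]
          refine ⟨?_, fun p hp hpy hpF hpP hd => hz4 p hp hpy hpF hpP (Int.natCast_dvd.2 hd)⟩
          have h2 : (a * z * (1 + t j) + b).natAbs ≤ a.natAbs * z.natAbs * (1 + t j) + b.natAbs := by
            refine (Int.natAbs_add_le _ _).trans (le_of_eq ?_)
            rw [Int.natAbs_mul, Int.natAbs_mul]
            have : ((1 : ℤ) + t j).natAbs = 1 + t j := by omega
            rw [this]
          have h3 : z.natAbs ≤ M := by omega
          have h4 : t j ≤ ∑ j, t j := single_le_sum (fun _ _ => Nat.zero_le _) (mem_univ j)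
          have h5 : a.natAbs * z.natAbs * (1 + t j) ≤ a.natAbs * M * (1 + ∑ j, t j) := by gcongr
          have h6 : C₂ * M = a.natAbs * M * (1 + ∑ j, t j) + b.natAbs * M + M := by rw [hC₂]; ring
          have h7 : b.natAbs ≤ b.natAbs * M := Nat.le_mul_of_pos_right _ hM1
          omega
        · intro c hc
          have h2 : s'.filter (fun z : ℤ => (a * z * (1 + t j) + b).natAbs = c) ⊆
              (((Icc (-(M : ℤ)) M).filter (fun z : ℤ => a * z * (1 + t j) + b = c)) ∪
              ((Icc (-(M : ℤ)) M).filter (fun z : ℤ => a * z * (1 + t j) + b = -c))) := by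
            intro z hz
            rw [mem_filter] at hz
            obtain ⟨hz1, hz2, hz3, hz4⟩ := hs' z hz.1
            rw [mem_union, mem_filter, mem_filter, mem_Icc]
            have := hz.2
            rcases Int.natAbs_eq (a * z * (1 + t j) + b) with h | h
            · left; exact ⟨⟨hz1, hz2⟩, by rw [h, this]⟩
            · right; exact ⟨⟨hz1, hz2⟩, by rw [h, this]⟩
          have h3 : ∀ e : ℤ, ((Icc (-(M : ℤ)) M).filter (fun z : ℤ => a * z * (1 + t j) + b = e)).card ≤ 1 := by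
            intro e
            rw [card_le_one]
            intro z hz z' hz'
            rw [mem_filter] at hz hz'
            have h4 : a * (1 + t j) * (z - z') = 0 := by linear_combination hz.2 - hz'.2
            have ha0 : a ≠ 0 := by
              rintro rfl
              obtain ⟨p, hp, hpF⟩ : ∃ p : ℕ, p.Prime ∧ p ∉ F := by
                obtain ⟨p, hp1, hp⟩ := Nat.exists_infinite_primes (F.sup id + 1)
                refine ⟨p, hp, fun h => ?_⟩
                have : p ≤ F.sup id := le_sup (f := id) h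
                omega
              exact hna p hp hpF (dvd_zero _)
            have h5 : (1 + (t j : ℤ)) ≠ 0 := by positivity
            rcases mul_eq_zero.1 h4 with h | h
            · exact absurd h (mul_ne_zero ha0 h5)
            · linarith
          have h6 := (card_le_card h2).trans (card_union_le _ _)
          have h7 := h3 c
          have h8 := h3 (-c)
          refine le_trans (le_of_eq ?_) (h6.trans (Nat.add_le_add h7 h8))
          congr 1
    have h2 : (R.card : ℝ) ≤ K * (2 * RN.card) := by exact_mod_cast h1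
    calc (R.card : ℝ) ≤ K * (2 * RN.card) := h2
      _ ≤ K * (2 * (C * (C₂ * M : ℕ) / Real.log y)) := by gcongr
      _ = _ := by ring
  -- the exceptional pairs
  set Bd : Finset (ℤ × Fin K) := R.filter (fun x => 1 < ∑ p ∈ P.filter (fun p => ¬ cls x p ∈ A p), 1 / (p : ℝ)) with hBd
  have hBdcard : (Bd.card : ℝ) ≤ 4 * (K * (K + 1)) * M / v₀ * 2 := by
    have h7 : (Bd.card : ℝ) ≤ ∑ x ∈ box K M, ∑ p ∈ P.filter (fun p => ¬ cls x p ∈ A p), 1 / (p : ℝ) := by
      calc (Bd.card : ℝ) = ∑ x ∈ Bd, (1 : ℝ) := by simp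
        _ ≤ ∑ x ∈ Bd, ∑ p ∈ P.filter (fun p => ¬ cls x p ∈ A p), 1 / (p : ℝ) :=
            sum_le_sum fun k hk => (mem_filter.1 hk).2.le
        _ ≤ _ := by
            apply sum_le_sum_of_subset_of_nonneg
            · intro k hk
              rw [hBd, hRd] at hk
              exact (mem_filter.1 (mem_filter.1 hk).1).1
            · intro _ _ _
              exact sum_nonneg fun _ _ => by positivity
    have h8 : ∑ x ∈ box K M, ∑ p ∈ P.filter (fun p => ¬ cls x p ∈ A p), 1 / (p : ℝ) =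
        ∑ p ∈ P, ((box K M).filter (fun x => ¬ cls x p ∈ A p)).card * (1 / (p : ℝ)) := by
      simp_rw [sum_filter]
      rw [sum_comm]
      apply sum_congr rfl
      intro p hp
      rw [← sum_filter, sum_const, nsmul_eq_mul]
    rw [h8] at h7
    have h9 : ∀ p ∈ P, (((box K M).filter (fun x => ¬ cls x p ∈ A p)).card : ℝ) * (1 / (p : ℝ)) ≤
        4 * (K * (K + 1)) * M * ((p : ℝ) ^ 2)⁻¹ := by
      intro p hpP
      obtain ⟨q1, q2, q3, q4, q5⟩ := hP p hpP
      have hp0 : (0 : ℝ) < p := by exact_mod_cast q1.pos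
      have h10 : ((box K M).filter (fun x => ¬ cls x p ∈ A p)).card ≤ K * ((K + 1) * (2 * M / p + 1)) := by
        apply card_line K M _ (filter_subset _ _) (fun j z => (p : ℤ) ∣ z ∨ ∃ j', j' ≠ j ∧
          (p : ℤ) ∣ (a * ((t j : ℤ) - t j')) * z + b)
        · intro x hx
          rw [mem_filter] at hx
          exact hcls2 x p q1 q4 hx.2
        · intro j s' hs'
          have h11 : s' ⊆
              ((Icc (-(M : ℤ)) M).filter (fun z : ℤ => (p : ℤ) ∣ 1 * z + 0)) ∪
              (univ.filter (fun j' => j' ≠ j)).biUnion (fun j' => (Icc (-(M : ℤ)) M).filter (fun z : ℤ =>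
                (p : ℤ) ∣ (a * ((t j : ℤ) - t j')) * z + b)) := by
            intro z hz
            obtain ⟨hz1, hz2, hz3⟩ := hs' z hz
            rw [mem_union, mem_filter, mem_biUnion]
            rcases hz3 with h | ⟨j', hj', h⟩
            · left; exact ⟨mem_Icc.2 ⟨hz1, hz2⟩, by simpa using h⟩
            · right; exact ⟨j', by simpa using hj', mem_filter.2 ⟨mem_Icc.2 ⟨hz1, hz2⟩, h⟩⟩
          refine (card_le_card h11).trans ((card_union_le _ _).trans ?_)
          have h12 := line_count p q1 1 0 (by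
            intro h
            exact q1.one_lt.ne' (by exact_mod_cast Int.eq_one_of_dvd_one (by positivity) h)) M
          have h13 : ((univ.filter (fun j' => j' ≠ j)).biUnion (fun j' => (Icc (-(M : ℤ)) M).filter (fun z : ℤ =>
                (p : ℤ) ∣ (a * ((t j : ℤ) - t j')) * z + b))).card ≤ K * (2 * M / p + 1) := by
            refine card_biUnion_le.trans ?_
            refine (sum_le_card_nsmul _ _ (2 * M / p + 1) (fun j' hj' => ?_)).trans ?_
            · rw [mem_filter] at hj'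
              apply line_count p q1
              intro h
              rcases (Nat.prime_iff_prime_int.1 q1).dvd_or_dvd h with h | h
              · exact hna p q1 q4 h
              · exact hng p q1 q4 (by exact_mod_cast h.trans (htt j j' (Ne.symm hj'.2)))
            · rw [smul_eq_mul]
              apply Nat.mul_le_mul_right
              refine (card_le_card (filter_subset _ _)).trans ?_
              rw [card_univ, Fintype.card_fin]
          calc _ ≤ (2 * M / p + 1) + K * (2 * M / p + 1) := Nat.add_le_add h12 h13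
            _ = _ := by ring
      have h11 : (((box K M).filter (fun x => ¬ cls x p ∈ A p)).card : ℝ) ≤
          K * ((K + 1) * (((2 * M / p : ℕ) : ℝ) + 1)) := by
        exact_mod_cast h10
      have h12 : ((2 * M / p : ℕ) : ℝ) ≤ (2 * M : ℝ) / p := by
        have := @Nat.cast_div_le ℝ _ _ _ (2 * M) p
        push_cast at this
        exact this
      have h13 : (1 : ℝ) ≤ M / p := by
        rw [one_le_div hp0]
        have h14 : (p : ℝ) ≤ y := by exact_mod_cast q3
        have h15 : (y : ℝ) ≤ M := by exact_mod_cast hyM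
        linarith
      have h14 : ((2 * M / p : ℕ) : ℝ) + 1 ≤ 4 * (M / p) := by
        have : (2 * M : ℝ) / p = 2 * (M / p) := by ring
        linarith
      calc (((box K M).filter (fun x => ¬ cls x p ∈ A p)).card : ℝ) * (1 / (p : ℝ))
          ≤ (K * ((K + 1) * (((2 * M / p : ℕ) : ℝ) + 1))) * (1 / (p : ℝ)) := by gcongr
        _ ≤ (K * ((K + 1) * (4 * (M / p)))) * (1 / (p : ℝ)) := by gcongr
        _ = _ := by field_simp
    calc (Bd.card : ℝ) ≤ ∑ p ∈ P, ((box K M).filter (fun x => ¬ cls x p ∈ A p)).card * (1 / (p : ℝ)) := h7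
      _ ≤ ∑ p ∈ P, 4 * (K * (K + 1)) * M * ((p : ℝ) ^ 2)⁻¹ := sum_le_sum h9
      _ = 4 * (K * (K + 1)) * M * ∑ p ∈ P, ((p : ℝ) ^ 2)⁻¹ := by rw [mul_sum]
      _ ≤ 4 * (K * (K + 1)) * M * (2 / v₀) := by gcongr
      _ = _ := by ring
  -- each pair
  have hfac01 : ∀ p ∈ P, 0 ≤ 1 - 1 / ((A p).card : ℝ) ∧ 1 - 1 / ((A p).card : ℝ) ≤ 1 - 1 / (p : ℝ) := by
    intro p hp
    have h9 : 1 ≤ (A p).card := card_pos.2 (hAne p hp)
    have h10 : (1 : ℝ) ≤ (A p).card := by exact_mod_cast h9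
    have h11 : (A p).card ≤ p := by
      have := card_le_card (filter_subset (fun ρ => ∀ j, ¬ p ∣ ρ + t j) (range p))
      rwa [card_range] at this
    have h12 : ((A p).card : ℝ) ≤ p := by exact_mod_cast h11
    constructor
    · have : 1 / ((A p).card : ℝ) ≤ 1 := by rw [div_le_one (by linarith)]; exact h10
      linarith
    · have : 1 / (p : ℝ) ≤ 1 / ((A p).card : ℝ) := one_div_le_one_div_of_le (by linarith) h12
      linarith
  have hPnn : 0 ≤ ∏ p ∈ P, (1 - 1 / (p : ℝ)) :=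
    Finset.prod_nonneg fun p hp => (one_sub_inv_pos (hP p hp).1).le
  have hexp2 : Real.exp 2 ≤ 8 := by
    have h7 := Real.exp_one_lt_d9
    have h8 : Real.exp 2 = Real.exp 1 * Real.exp 1 := by rw [← Real.exp_add]; norm_num
    rw [h8]; nlinarith [Real.exp_pos 1]
  have hfib : ∀ x ∈ R, ∏ p ∈ P.filter (fun p => cls x p ∈ A p), (1 - 1 / ((A p).card : ℝ)) ≤
      (∏ p ∈ P, (1 - 1 / (p : ℝ))) * 8 + (if x ∈ Bd then 1 else 0) := by
    intro k hk
    by_cases hkB : k ∈ Bd
    · rw [if_pos hkB]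
      have h7 : ∏ p ∈ P.filter (fun p => cls k p ∈ A p), (1 - 1 / ((A p).card : ℝ)) ≤ 1 := by
        apply Finset.prod_le_one
        · intro p hp; exact (hfac01 p (mem_filter.1 hp).1).1
        · intro p hp
          have h8 := (hfac01 p (mem_filter.1 hp).1).2
          have : 0 ≤ 1 / (p : ℝ) := by positivity
          linarith
      have : 0 ≤ (∏ p ∈ P, (1 - 1 / (p : ℝ))) * 8 := by positivity
      linarith
    · rw [if_neg hkB, add_zero]
      set E : Finset ℕ := P.filter (fun p => ¬ cls k p ∈ A p) with hE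
      have hEs : ∑ p ∈ E, 1 / (p : ℝ) ≤ 1 := by
        by_contra hcon
        push Not at hcon
        exact hkB (mem_filter.2 ⟨hk, hcon⟩)
      have h7 : P.filter (fun p => cls k p ∈ A p) = P \ E := by
        ext p
        have hmE : p ∈ E ↔ (p ∈ P ∧ ¬ cls k p ∈ A p) := by rw [hE, mem_filter]
        have hmPE : p ∈ P \ E ↔ (p ∈ P ∧ p ∉ E) := Finset.mem_sdiff
        rw [mem_filter, hmPE, hmE]
        by_cases c1 : p ∈ P <;> by_cases c2 : cls k p ∈ A p <;> simp only [c1, c2, true_and, false_and,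
          and_true, not_true, not_false_iff, and_self, and_false]
      have h8 : ∏ p ∈ P.filter (fun p => cls k p ∈ A p), (1 - 1 / ((A p).card : ℝ)) ≤
          ∏ p ∈ P.filter (fun p => cls k p ∈ A p), (1 - 1 / (p : ℝ)) := by
        apply Finset.prod_le_prod
        · intro p hp; exact (hfac01 p (mem_filter.1 hp).1).1
        · intro p hp; exact (hfac01 p (mem_filter.1 hp).1).2
      refine h8.trans ?_
      rw [h7]
      have h9 := prod_drop' P E (fun p hp => ⟨(hP p hp).1, (hP p hp).2.2.2.2⟩) (filter_subset _ _) 1 hEs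
      rw [mul_one] at h9
      refine h9.trans ?_
      gcongr
  calc ∑ k ∈ R, ∏ p ∈ P.filter (fun p => cls k p ∈ A p), (1 - 1 / ((A p).card : ℝ))
      ≤ ∑ k ∈ R, ((∏ p ∈ P, (1 - 1 / (p : ℝ))) * 8 + (if k ∈ Bd then 1 else 0)) := sum_le_sum hfib
    _ = R.card * ((∏ p ∈ P, (1 - 1 / (p : ℝ))) * 8) + Bd.card := by
        have hRB : R.filter (fun k => k ∈ Bd) = Bd := by
          ext k
          rw [mem_filter]
          refine ⟨fun h => h.2, fun h => ⟨?_, h⟩⟩
          rw [hBd, mem_filter] at h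
          exact h.1
        rw [sum_add_distrib, sum_const, nsmul_eq_mul, ← sum_filter, sum_const, nsmul_eq_mul, mul_one, hRB]
    _ ≤ (2 * K * (C * (C₂ * M : ℕ) / Real.log y)) * ((C * (τ ^ 2 / (Real.log y * Real.log τ))) * 8) +
        4 * (K * (K + 1)) * M / v₀ * 2 := by
        gcongr
    _ ≤ (2 * K * (C * (C₂ * M : ℕ) / Real.log y)) * ((C * (τ ^ 2 / (Real.log y * Real.log τ))) * 8) +
        (4 * (K * (K + 1)) * M / v₀ * 2 + M / v₀) * (τ ^ 2 / Real.log τ) := by
        have h7 : 4 * (K * (K + 1)) * (M : ℝ) / v₀ * 2 ≤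
            (4 * (K * (K + 1)) * M / v₀ * 2 + M / v₀) * (τ ^ 2 / Real.log τ) := by
          have e1 : (0 : ℝ) ≤ M / v₀ := by positivity
          calc 4 * (K * (K + 1)) * (M : ℝ) / v₀ * 2 ≤ (4 * (K * (K + 1)) * M / v₀ * 2 + M / v₀) * 1 := by linarith
            _ ≤ _ := by gcongr
        linarith
    _ = _ := by
        rw [hv₀]
        push_cast
        field_simp
        ring

end Pool.Agent.Helper12.CL
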