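import Pool.Agent.Helper12.CL.Clus

set_option autoImplicit false
set_option maxHeartbeats 4000000

/-! # Bounded clusters of primes `p` with all the numbers `a k p + b` composite up to the record size: counting -/

namespace Pool.Agent.Helper12.CL

open Finset Filter
open Pool.Agent.H256R2.SC (ff)
open Pool.Agent.H362R2.RQ (fib)

open scoped Classical

theorem clusters (m : ℕ) (a b : ℤ) (ha : a ≠ 0) (hb : b ≠ 0) : ∃ (B : ℕ) (c : ℝ), 0 < c ∧ ∀ᶠ X : ℝ in atTop,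
    X ^ (9 / 10 : ℝ) ≤ ({n : ℕ | X < n ∧ (n : ℝ) ≤ 3 * X ∧ ∃ P : Finset ℕ, P.card = m ∧
      ∀ p ∈ P, p.Prime ∧ n ≤ p ∧ p ≤ n + B ∧
        ∀ k : ℤ, k ≠ 0 → |(k : ℝ)| ≤ c * ff X → ¬ (a * k * p + b).natAbs.Prime}.ncard : ℝ) := by
  obtain ⟨η, hη, hcore⟩ := cluster_core
  obtain ⟨m', hm'⟩ : ∃ m' : ℕ, m' = ⌈(m : ℝ) / η⌉₊ + 1 := ⟨_, rfl⟩
  have hm1 : 1 ≤ m' := by omega
  have hηm : (m : ℝ) ≤ η * m' := by
    have h1 : (m : ℝ) / η ≤ m' := by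
      rw [hm']
      push_cast
      linarith [Nat.le_ceil ((m : ℝ) / η)]
    rw [div_le_iff₀ hη] at h1
    linarith
  obtain ⟨K, hK, hcoreK⟩ := hcore m' hm1
  obtain ⟨Q, hQ, c, hc, hX⟩ := hcoreK a b ha hb
  obtain ⟨col, hcol⟩ := exists_col' K m' hm1 hK
  refine ⟨Q * K, c, hc, ?_⟩
  filter_upwards [hX, eventually_ge_atTop ((2 + |(b : ℝ)|) ^ 2)] with X hXX hXb
  have hb0 : 0 ≤ |(b : ℝ)| := abs_nonneg _
  have hX4 : 4 ≤ X := by nlinarith
  have hX0 : 0 < X := by linarith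
  set S : Set ℕ := {n : ℕ | X < n ∧ (n : ℝ) ≤ 3 * X ∧ ∃ P : Finset ℕ, P.card = m ∧
      ∀ p ∈ P, p.Prime ∧ n ≤ p ∧ p ≤ n + Q * K ∧
        ∀ k : ℤ, k ≠ 0 → |(k : ℝ)| ≤ c * ff X → ¬ (a * k * p + b).natAbs.Prime} with hS
  have hfin : S.Finite := by
    refine (Set.finite_Iic ⌊3 * X⌋₊).subset ?_
    intro n hn
    exact Nat.le_floor hn.2.1
  by_contra hcon
  push Not at hcon
  obtain ⟨n, hXn, hn3, hnb, ⟨E, hE1, hE2⟩, hall⟩ := hXX col hcol hfin.toFinset (by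
    rw [← Set.ncard_eq_toFinset_card S hfin]
    exact hcon.le)
  apply hnb
  rw [Set.Finite.mem_toFinset]
  haveI : Nonempty (Fin K) := ⟨⟨0, by omega⟩⟩
  choose! j hj1 hj2 using hE2
  have hinj : Set.InjOn (fun e : Fin m' => n + Q * (j e : ℕ)) (E : Set (Fin m')) := by
    intro e he e' he' h
    simp only at h
    have h1 : (j e : ℕ) = j e' := by
      have h2 : Q * (j e : ℕ) = Q * (j e' : ℕ) := by omega
      exact Nat.eq_of_mul_eq_mul_left hQ h2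
    have h3 : j e = j e' := Fin.ext h1
    rw [← hj1 e he, ← hj1 e' he', h3]
  have hcard : m ≤ (E.image (fun e : Fin m' => n + Q * (j e : ℕ))).card := by
    rw [card_image_of_injOn hinj]
    have : (m : ℝ) ≤ E.card := hηm.trans hE1
    exact_mod_cast this
  obtain ⟨P, hP1, hP2⟩ := exists_subset_card_eq hcard
  refine ⟨hXn, hn3, P, hP2, fun p hp => ?_⟩
  have hp2 := hP1 hp
  rw [mem_image] at hp2
  obtain ⟨e, he, rfl⟩ := hp2
  refine ⟨hj2 e he, by omega, ?_, fun k hk hkc hprime => ?_⟩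
  · have : Q * (j e : ℕ) ≤ Q * K := Nat.mul_le_mul_left _ (j e).2.le
    omega
  · obtain ⟨q, hq, hqX, hqd⟩ := hall k (j e) hk hkc
    have h1 : (q : ℤ) ∣ a * k * ((n + Q * (j e : ℕ) : ℕ) : ℤ) + b := by
      push_cast
      exact hqd
    have h2 : q ∣ (a * k * ((n + Q * (j e : ℕ) : ℕ) : ℤ) + b).natAbs := Int.natCast_dvd.1 h1
    have h3 : q = (a * k * ((n + Q * (j e : ℕ) : ℕ) : ℤ) + b).natAbs :=
      ((Nat.dvd_prime hprime).1 h2).resolve_left hq.one_lt.ne'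
    have h4 : (q : ℝ) = |(a : ℝ) * k * ((n + Q * (j e : ℕ) : ℕ) : ℝ) + b| := by
      rw [h3, Nat.cast_natAbs]
      push_cast
      rfl
    have h5 : (n : ℝ) ≤ |(a : ℝ) * k * ((n + Q * (j e : ℕ) : ℕ) : ℝ)| := by
      rw [abs_mul, abs_mul]
      have e1 : (1 : ℝ) ≤ |(a : ℝ)| := by exact_mod_cast Int.one_le_abs ha
      have e2 : (1 : ℝ) ≤ |(k : ℝ)| := by exact_mod_cast Int.one_le_abs hk
      have e3 : (n : ℝ) ≤ |((n + Q * (j e : ℕ) : ℕ) : ℝ)| := by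
        rw [abs_of_nonneg (Nat.cast_nonneg _)]
        exact_mod_cast Nat.le_add_right _ _
      have e4 : (1 : ℝ) ≤ |(a : ℝ)| * |(k : ℝ)| := by nlinarith
      calc (n : ℝ) ≤ 1 * |((n + Q * (j e : ℕ) : ℕ) : ℝ)| := by rw [one_mul]; exact e3
        _ ≤ _ := mul_le_mul_of_nonneg_right e4 (abs_nonneg _)
    have h6 : (n : ℝ) - |(b : ℝ)| ≤ q := by
      rw [h4]
      have := abs_sub_abs_le_abs_sub ((a : ℝ) * k * ((n + Q * (j e : ℕ) : ℕ) : ℝ)) (-b)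
      rw [abs_neg, sub_neg_eq_add] at this
      linarith
    have h7 : X ^ (1 / 1000 : ℝ) ≤ X ^ (1 / 2 : ℝ) :=
      Real.rpow_le_rpow_of_exponent_le (by linarith) (by norm_num)
    rw [← Real.sqrt_eq_rpow] at h7
    have h8 : 2 + |(b : ℝ)| ≤ Real.sqrt X := by
      rw [← Real.sqrt_sq (show 0 ≤ 2 + |(b : ℝ)| by linarith)]
      exact Real.sqrt_le_sqrt hXb
    have h9 : Real.sqrt X * Real.sqrt X = X := Real.mul_self_sqrt hX0.le
    nlinarith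

end Pool.Agent.Helper12.CL
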