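import Pool.Agent.TH101.RG.Surv

set_option autoImplicit false
set_option maxHeartbeats 4000000

/-! # Greedy choice of residue classes for a family of forms

`greedyI` is `Pool.Agent.H398R2.RK.greedy_gen` (helper398) for an arbitrary index set and arbitrary classes. -/

namespace Pool.Agent.Helper12.CL

open Finset

open scoped Classical

theorem greedyI {ι : Type} (cls : ι → ℕ → ℕ) (P : Finset ℕ) (A : ℕ → Finset ℕ)
    (hA : ∀ p ∈ P, (A p).Nonempty) :
    ∀ R : Finset ι, ∃ b : ℕ → ℕ, (∀ p ∈ P, b p ∈ A p) ∧
      ((R.filter (fun k => ∀ p ∈ P, ¬ cls k p = b p)).card : ℝ) ≤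
        ∑ k ∈ R, ∏ p ∈ P.filter (fun p => cls k p ∈ A p), (1 - 1 / ((A p).card : ℝ)) := by
  induction P using Finset.induction_on with
  | empty => intro R; exact ⟨fun _ => 0, by simp, by simp⟩
  | insert p P hpP ih =>
    intro R
    have ihP := ih (fun q hq => hA q (mem_insert_of_mem hq))
    have hAne := hA p (mem_insert_self _ _)
    set w : ι → ℝ := fun k => ∏ q ∈ P.filter (fun q => cls k q ∈ A q), (1 - 1 / ((A q).card : ℝ)) with hw
    have hone : ∀ q ∈ insert p P, 1 / ((A q).card : ℝ) ≤ 1 := by
      intro q hq
      have h1 : 1 ≤ (A q).card := card_pos.2 (hA q hq)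
      have h2 : (1 : ℝ) ≤ (A q).card := by exact_mod_cast h1
      rw [div_le_one (by linarith)]; exact h2
    have hw0 : ∀ k, 0 ≤ w k := by
      intro k
      apply prod_nonneg
      intro q hq
      have := hone q (mem_insert_of_mem (mem_filter.1 hq).1)
      linarith
    have hc1 : (0 : ℝ) < (A p).card := by exact_mod_cast card_pos.2 hAne
    have havg : ∃ c ∈ A p, ∑ k ∈ R.filter (fun k => ¬ cls k p = c), w k ≤
        ∑ k ∈ R, ∏ q ∈ (insert p P).filter (fun q => cls k q ∈ A q), (1 - 1 / ((A q).card : ℝ)) := by
      by_contra hcon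
      push Not at hcon
      have h1 := sum_lt_sum_of_nonempty hAne hcon
      rw [sum_const, nsmul_eq_mul] at h1
      have h2 : ∑ c ∈ A p, ∑ k ∈ R.filter (fun k => ¬ cls k p = c), w k =
          ∑ k ∈ R, w k * ((A p).filter (fun c => ¬ cls k p = c)).card := by
        simp_rw [sum_filter]
        rw [sum_comm]
        apply sum_congr rfl
        intro k _
        rw [← sum_filter, sum_const, nsmul_eq_mul, mul_comm]
      rw [h2, mul_sum] at h1
      apply lt_irrefl _ (lt_of_lt_of_le h1 _)
      apply sum_le_sum
      intro k _
      by_cases hd : cls k p ∈ A p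
      · have h3 : (insert p P).filter (fun q => cls k q ∈ A q) = insert p (P.filter (fun q => cls k q ∈ A q)) := by
          rw [filter_insert, if_pos hd]
        rw [h3, prod_insert (by simp [hpP])]
        have h4 : ((A p).filter (fun c => ¬ cls k p = c)).card ≤ (A p).card - 1 := by
          have h5 : (A p).filter (fun c => ¬ cls k p = c) ⊆ (A p).erase (cls k p) := by
            intro c hc
            rw [mem_filter] at hc
            rw [mem_erase]
            exact ⟨fun h => hc.2 h.symm, hc.1⟩
          have h7 := card_le_card h5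
          rwa [card_erase_of_mem hd] at h7
        have h5 : (((A p).filter (fun c => ¬ cls k p = c)).card : ℝ) ≤ ((A p).card : ℝ) - 1 := by
          have h6 : 1 ≤ (A p).card := card_pos.2 hAne
          have : (((A p).card - 1 : ℕ) : ℝ) = ((A p).card : ℝ) - 1 := by
            rw [Nat.cast_sub h6]; simp
          rw [← this]; exact_mod_cast h4
        calc w k * (((A p).filter (fun c => ¬ cls k p = c)).card : ℝ)
            ≤ w k * (((A p).card : ℝ) - 1) := mul_le_mul_of_nonneg_left h5 (hw0 k)
          _ = _ := by
              simp only [hw]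
              field_simp
      · have h3 : (insert p P).filter (fun q => cls k q ∈ A q) = P.filter (fun q => cls k q ∈ A q) := by
          rw [filter_insert, if_neg hd]
        rw [h3]
        have h4 : (((A p).filter (fun c => ¬ cls k p = c)).card : ℝ) ≤ ((A p).card : ℝ) := by
          exact_mod_cast card_filter_le _ _
        calc w k * (((A p).filter (fun c => ¬ cls k p = c)).card : ℝ)
            ≤ w k * ((A p).card : ℝ) := mul_le_mul_of_nonneg_left h4 (hw0 k)
          _ = _ := by rw [mul_comm]
    obtain ⟨c, hc, hle⟩ := havg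
    obtain ⟨b, hb, hbc⟩ := ihP (R.filter (fun k => ¬ cls k p = c))
    refine ⟨Function.update b p c, ?_, ?_⟩
    · intro q hq
      rcases mem_insert.1 hq with rfl | hq
      · rw [Function.update_self]; exact hc
      · have : q ≠ p := fun h => hpP (h ▸ hq)
        rw [Function.update_of_ne this]
        exact hb q hq
    · refine le_trans ?_ (hbc.trans hle)
      have h8 : R.filter (fun k => ∀ q ∈ insert p P, ¬ cls k q = Function.update b p c q) ⊆
          (R.filter (fun k => ¬ cls k p = c)).filter (fun k => ∀ q ∈ P, ¬ cls k q = b q) := by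
        intro k hk
        rw [mem_filter] at hk
        rw [mem_filter, mem_filter]
        refine ⟨⟨hk.1, ?_⟩, fun q hq => ?_⟩
        · have := hk.2 p (mem_insert_self _ _)
          rwa [Function.update_self] at this
        · have h9 : q ≠ p := fun h => hpP (h ▸ hq)
          have := hk.2 q (mem_insert_of_mem hq)
          rwa [Function.update_of_ne h9] at this
      exact_mod_cast card_le_card h8

/-- integers of a linear form divisible by a prime -/
theorem line_count (p : ℕ) (hp : p.Prime) (α β : ℤ) (hα : ¬ (p : ℤ) ∣ α) (M : ℕ) :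
    ((Icc (-(M : ℤ)) M).filter (fun z : ℤ => (p : ℤ) ∣ α * z + β)).card ≤ 2 * M / p + 1 := by
  have hp0 : (0 : ℤ) < p := by exact_mod_cast hp.pos
  have h1 : ((Icc (-(M : ℤ)) M).filter (fun z : ℤ => (p : ℤ) ∣ α * z + β)).card ≤
      (range (2 * M / p + 1)).card := by
    apply card_le_card_of_injOn (fun z : ℤ => (z + M).toNat / p)
    · intro z hz
      simp only [coe_filter, mem_Icc, Set.mem_ofPred_eq, coe_range, Set.mem_Iio] at hz ⊢
      apply Nat.lt_succ_of_le
      apply Nat.div_le_div_right
      omega
    · intro z hz z' hz' h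
      simp only [coe_filter, mem_Icc, Set.mem_ofPred_eq] at hz hz' h
      have h2 : (p : ℤ) ∣ z - z' := by
        have h3 : (p : ℤ) ∣ α * (z - z') := by
          have := dvd_sub hz.2 hz'.2
          have e : α * z + β - (α * z' + β) = α * (z - z') := by ring
          rwa [e] at this
        exact ((Nat.prime_iff_prime_int.1 hp).dvd_or_dvd h3).resolve_left hα
      have h4 : (z + M).toNat % p = (z' + M).toNat % p := by
        have h5 : ((z + M).toNat : ℤ) ≡ ((z' + M).toNat : ℤ) [ZMOD p] := by
          rw [Int.toNat_of_nonneg (by omega), Int.toNat_of_nonneg (by omega)]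
          apply Int.ModEq.symm
          rw [Int.modEq_iff_dvd]
          have e : z + M - (z' + M) = z - z' := by ring
          rw [e]; exact h2
        exact Int.natCast_modEq_iff.1 h5
      have h6 : (z + M).toNat = (z' + M).toNat := by
        rw [← Nat.div_add_mod (z + M).toNat p, ← Nat.div_add_mod (z' + M).toNat p, h, h4]
      omega
  rwa [card_range] at h1

end Pool.Agent.Helper12.CL
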